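import Pool.Agent.N658.TP.Stm4

/-! # Entropies bounded by a power -/

open scoped BigOperators ComplexConjugate Classical

noncomputable section

namespace Pool.Agent.N896.TP

open Pool.Agent.Y738.PE Pool.Agent.N658.TP

/-- the numbers -/
theorem numbers (a α ε : ℝ) (ha : 0 ≤ a) (hα2 : α ≤ 2) (hε : 0 < ε) (hε1 : ε ≤ 1)
    (C₁ S : ℝ) (hC₁ : 0 < C₁) (b : ℕ) (hb : b = ⌈ε ^ (-(1 / (4 - α)))⌉₊)
    (hS : S ≤ a * (b : ℝ) ^ α) :
    1 ≤ b ∧ C₁ * ((b : ℝ) ^ 2 + (1 + S / ((b : ℝ) ^ 2 * (ε / 2))) * Real.log (2 * b / (ε / 2))) ≤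
      (C₁ * (11 + 6 * a)) * ε ^ (-(2 / (4 - α))) * Real.log (2 / ε) := by
  have h4 : 0 < 4 - α := by linarith
  obtain ⟨t, ht⟩ : ∃ t : ℝ, t = ε ^ (-(1 / (4 - α))) := ⟨_, rfl⟩
  obtain ⟨u, hu⟩ : ∃ u : ℝ, u = ε ^ (-(2 / (4 - α))) := ⟨_, rfl⟩
  have ht1 : 1 ≤ t := by
    rw [ht]
    exact Real.one_le_rpow_of_pos_of_le_one_of_nonpos hε hε1 (by
      have : 0 ≤ 1 / (4 - α) := by positivity
      linarith)
  have htu : t ^ 2 = u := by
    rw [ht, hu, ← Real.rpow_natCast, ← Real.rpow_mul hε.le]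
    congr 1
    push_cast
    ring
  have hu1 : 1 ≤ u := by rw [← htu]; nlinarith
  have htε : t ≤ 1 / ε := by
    have e : 1 / ε = ε ^ (-1 : ℝ) := by rw [Real.rpow_neg_one, one_div]
    rw [ht, e]
    apply Real.rpow_le_rpow_of_exponent_ge hε hε1
    have : 1 / (4 - α) ≤ 1 := by
      rw [div_le_one h4]; linarith
    linarith
  rw [← ht] at hb
  have hbt : t ≤ b := by rw [hb]; exact Nat.le_ceil _
  have hb2 : (b : ℝ) ≤ 2 * t := by
    have := (Nat.ceil_lt_add_one (a := t) (by linarith)).le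
    rw [← hb] at this
    linarith
  have hb1 : (1 : ℝ) ≤ b := by linarith
  have hb1' : 1 ≤ b := by exact_mod_cast hb1
  refine ⟨hb1', ?_⟩
  rw [← hu]
  obtain ⟨l, hl⟩ : ∃ l : ℝ, l = Real.log (2 / ε) := ⟨_, rfl⟩
  rw [← hl]
  have hl2 : 1 / 2 ≤ l := by
    have h1 : Real.log 2 ≤ Real.log (2 / ε) := by
      apply Real.log_le_log (by norm_num)
      rw [le_div_iff₀ hε]; linarith
    have := Real.log_two_gt_d9
    rw [hl]; linarith
  have hbb : (b : ℝ) ^ 2 ≤ 4 * u := by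
    rw [← htu]; nlinarith
  have hbp : (0 : ℝ) < b := by linarith
  -- the entropy term
  have hS2 : S / ((b : ℝ) ^ 2 * (ε / 2)) ≤ 2 * a * u := by
    have e1 : S / ((b : ℝ) ^ 2 * (ε / 2)) ≤ a * (b : ℝ) ^ α / ((b : ℝ) ^ 2 * (ε / 2)) :=
      div_le_div_of_nonneg_right hS (by positivity)
    refine e1.trans ?_
    have e2 : a * (b : ℝ) ^ α / ((b : ℝ) ^ 2 * (ε / 2)) = 2 * a * ((b : ℝ) ^ (α - 2) / ε) := by
      rw [Real.rpow_sub hbp, Real.rpow_two]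
      field_simp
    rw [e2]
    apply mul_le_mul_of_nonneg_left _ (by positivity)
    have e3 : (b : ℝ) ^ (α - 2) ≤ t ^ (α - 2) :=
      Real.rpow_le_rpow_of_nonpos (by linarith) hbt (by linarith)
    have e4 : t ^ (α - 2) / ε = u := by
      rw [ht, hu, ← Real.rpow_mul hε.le, div_eq_mul_inv, ← Real.rpow_neg_one ε,
        ← Real.rpow_add hε]
      congr 1
      field_simp
      ring
    rw [← e4]
    exact div_le_div_of_nonneg_right e3 hε.le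
  -- the logarithm
  have hlog : Real.log (2 * b / (ε / 2)) ≤ 3 * l := by
    have e1 : Real.log (2 * b / (ε / 2)) ≤ Real.log ((2 / ε) ^ 3) := by
      apply Real.log_le_log (by positivity)
      have e2 : 2 * (b : ℝ) / (ε / 2) = 4 * b * (1 / ε) := by field_simp; ring
      have e3 : (2 / ε) ^ 3 = 8 * (1 / ε) * (1 / ε) * (1 / ε) := by ring
      rw [e2, e3]
      have hinv : 1 ≤ 1 / ε := by rw [le_div_iff₀ hε]; linarith
      have e4 : (b : ℝ) ≤ 2 * (1 / ε) := by linarith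
      apply mul_le_mul_of_nonneg_right _ (by positivity)
      nlinarith
    rw [Real.log_pow] at e1
    rw [hl]
    exact_mod_cast e1
  have hlog0 : 0 ≤ Real.log (2 * b / (ε / 2)) := by
    apply Real.log_nonneg
    rw [le_div_iff₀ (by linarith)]
    linarith
  have k1 : (1 + S / ((b : ℝ) ^ 2 * (ε / 2))) * Real.log (2 * b / (ε / 2)) ≤
      (1 + 2 * a * u) * (3 * l) := by
    have hau : 0 ≤ a * u := by positivity
    calc (1 + S / ((b : ℝ) ^ 2 * (ε / 2))) * Real.log (2 * b / (ε / 2)) ≤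
        (1 + 2 * a * u) * Real.log (2 * b / (ε / 2)) :=
          mul_le_mul_of_nonneg_right (by linarith) hlog0
      _ ≤ (1 + 2 * a * u) * (3 * l) := mul_le_mul_of_nonneg_left hlog (by nlinarith)
  have k2 : (b : ℝ) ^ 2 + (1 + S / ((b : ℝ) ^ 2 * (ε / 2))) * Real.log (2 * b / (ε / 2)) ≤
      (11 + 6 * a) * u * l := by
    have hul : u ≤ 2 * (u * l) := by nlinarith
    have hl' : l ≤ u * l := by nlinarith
    calc _ ≤ 4 * u + (1 + 2 * a * u) * (3 * l) := add_le_add hbb k1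
      _ ≤ (11 + 6 * a) * u * l := by nlinarith
  calc _ ≤ C₁ * ((11 + 6 * a) * u * l) := mul_le_mul_of_nonneg_left k2 hC₁.le
    _ = _ := by ring

theorem ent2 (h : StmEnt1) : StmEnt2 := by
  intro d hd R a α ha hα hα2
  obtain ⟨C₁, hC₁, hmain⟩ := h d hd R
  refine ⟨C₁ * (11 + 6 * a), by positivity, ?_⟩
  rintro Ψ ⟨L₁, hL₁⟩ hconv hent ε hε hε1
  obtain ⟨b, hb⟩ : ∃ b : ℕ, b = ⌈ε ^ (-(1 / (4 - α)))⌉₊ := ⟨_, rfl⟩
  have hb1 : 1 ≤ b := (numbers a α ε ha hα2 hε hε1 C₁ (a * (b : ℝ) ^ α) hC₁ b hb le_rfl).1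
  obtain ⟨L₂, hL₂⟩ := hconv (ε / 2) (by linarith)
  obtain ⟨L₄, hL₄⟩ := hent b hb1
  obtain ⟨N, hN⟩ : ∃ N : ℕ, N = max (max (max L₁ L₂) L₄) ⌈C₁ * b / (ε / 2)⌉₊ + 1 := ⟨_, rfl⟩
  have hi : NeZero N := ⟨by omega⟩
  have hNC : C₁ * b / (ε / 2) ≤ N := by
    refine (Nat.le_ceil _).trans ?_
    have : ⌈C₁ * b / (ε / 2)⌉₊ ≤ N := by omega
    exact_mod_cast this
  obtain ⟨hn, hTI⟩ := hL₁ N (by omega)
  have hS := hL₄ N (by omega)
  obtain ⟨D, A, hD, hA⟩ := hmain (ε / 2) (by linarith) (by linarith) b hb1 N hNC (Ψ N) hn hTI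
  refine ⟨D, A, ?_, max L₂ ⌈C₁ * (b / (ε / 2)) ^ 4⌉₊, ?_⟩
  · refine hD.trans (Real.exp_le_exp.2 ?_)
    exact (numbers a α ε ha hα2 hε hε1 C₁ _ hC₁ b hb hS).2
  · intro L _ hL
    have h1 : C₁ * (b / (ε / 2)) ^ 4 ≤ L := by
      refine (Nat.le_ceil _).trans ?_
      have : ⌈C₁ * (b / (ε / 2)) ^ 4⌉₊ ≤ L := by omega
      exact_mod_cast this
    obtain ⟨h2, h3⟩ := hA L h1
    refine ⟨h2, ?_⟩
    have h4 := hL₂ L N (by omega) (by omega)
    have h5 := close_trans h4 h3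
    exact close_mono h5 (by linarith)

end Pool.Agent.N896.TP
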