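import Pool.Agent.N896.TP.Bounds

/-!
Asymptotics: the blow-ups of `K_m^{⊗ r}` with `m = w ^ 2`, `r = w ^ 5` and `w` tending to infinity slowly.
-/

set_option autoImplicit false

open Finset Function Filter Topology

namespace Pool.Agent.N896.TP

/-- the slowly growing parameter -/
def w (n : ℕ) : ℕ :=
  Nat.findGreatest (fun u => (u + 2) ^ 2 * ((u + 2) ^ 2) ^ ((u + 2) ^ 5) ≤ n) n + 2

lemma two_le_w (n : ℕ) : 2 ≤ w n := by
  unfold w; omega

lemma w_spec : ∀ᶠ n : ℕ in atTop, (w n) ^ 2 * ((w n) ^ 2) ^ ((w n) ^ 5) ≤ n := by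
  filter_upwards [eventually_ge_atTop ((0 + 2) ^ 2 * ((0 + 2) ^ 2) ^ ((0 + 2) ^ 5))] with n hn
  exact Nat.findGreatest_spec (P := fun u => (u + 2) ^ 2 * ((u + 2) ^ 2) ^ ((u + 2) ^ 5) ≤ n)
    (Nat.zero_le n) hn

lemma w_tendsto : Tendsto w atTop atTop := by
  rw [tendsto_atTop]
  intro b
  filter_upwards [eventually_ge_atTop ((b + 2) ^ 2 * ((b + 2) ^ 2) ^ ((b + 2) ^ 5)),
    eventually_ge_atTop b] with n hn hb
  have := Nat.le_findGreatest (P := fun u => (u + 2) ^ 2 * ((u + 2) ^ 2) ^ ((u + 2) ^ 5) ≤ n) hb hn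
  unfold w
  omega

instance neM (n : ℕ) : NeZero ((w n) ^ 2) := ⟨by have := two_le_w n; positivity⟩
instance neR (n : ℕ) : NeZero ((w n) ^ 5) := ⟨by have := two_le_w n; positivity⟩

/-- the graph on `n` vertices -/
def gph (n : ℕ) : SimpleGraph (Fin n) := gr ((w n) ^ 2) ((w n) ^ 5) n

/-- the density -/
noncomputable def q (n : ℕ) : ℝ := (1 - 1 / ((w n) ^ 2 : ℝ)) ^ ((w n) ^ 5)

lemma wR (n : ℕ) : (2 : ℝ) ≤ w n := by exact_mod_cast two_le_w n

lemma x_le (n : ℕ) : 1 / ((w n) ^ 2 : ℝ) ≤ 1 / 4 := by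
  have := wR n
  exact one_div_le_one_div_of_le (by norm_num) (by nlinarith)

lemma x_pos (n : ℕ) : 0 < 1 / ((w n) ^ 2 : ℝ) := by
  have := wR n
  positivity

lemma q_pos (n : ℕ) : 0 < q n := by
  have := x_le n
  unfold q
  apply pow_pos
  linarith

lemma q_le_one (n : ℕ) : q n ≤ 1 := by
  have h1 := x_le n
  have h2 := x_pos n
  unfold q
  exact pow_le_one₀ (by linarith) (by linarith)

lemma q_ge (n : ℕ) : Real.exp (-(2 * (w n : ℝ) ^ 3)) ≤ q n := by
  have h1 := x_le n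
  have h2 := x_pos n
  have h3 := wR n
  set x := 1 / ((w n) ^ 2 : ℝ) with hx
  have h4 : 0 < 1 - x := by linarith
  have h5 : -(2 * x) ≤ Real.log (1 - x) := by
    have h := Real.one_sub_inv_le_log_of_pos h4
    have : -(2 * x) ≤ 1 - (1 - x)⁻¹ := by
      rw [← sub_nonneg]
      have : 1 - (1 - x)⁻¹ - -(2 * x) = x * (1 - 2 * x) / (1 - x) := by
        field_simp
        ring
      rw [this]
      have : 0 ≤ 1 - 2 * x := by linarith
      positivity
    linarith
  have h6 : q n = Real.exp ((w n : ℝ) ^ 5 * Real.log (1 - x)) := by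
    unfold q
    rw [← hx]
    rw [← Real.exp_log (pow_pos h4 ((w n) ^ 5)), Real.log_pow]
    push_cast
    rfl
  rw [h6]
  apply Real.exp_le_exp.2
  have h7 : (w n : ℝ) ^ 5 * (-(2 * x)) = -(2 * (w n : ℝ) ^ 3) := by
    rw [hx]
    field_simp
  rw [← h7]
  exact mul_le_mul_of_nonneg_left h5 (by positivity)

lemma log_ge : ∀ᶠ n : ℕ in atTop, (w n : ℝ) ^ 5 ≤ Real.log n := by
  filter_upwards [w_spec] with n hn
  have h3 := wR n
  have h1 : ((w n : ℝ) ^ 2) ^ ((w n) ^ 5) ≤ n := by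
    have h : ((w n) ^ 2) ^ ((w n) ^ 5) ≤ n := by
      refine le_trans ?_ hn
      apply Nat.le_mul_of_pos_left
      have := two_le_w n
      positivity
    exact_mod_cast h
  have h2 := Real.log_le_log (by positivity) h1
  rw [Real.log_pow, Real.log_pow] at h2
  refine le_trans ?_ h2
  have h4 : Real.log 2 ≤ Real.log (w n) := Real.log_le_log (by norm_num) h3
  have h5 := Real.log_two_gt_d9
  push_cast
  have h6 : (1 : ℝ) ≤ 2 * Real.log (w n) := by linarith
  have h7 : (0 : ℝ) ≤ (w n : ℝ) ^ 5 := by positivity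
  nlinarith

lemma w_real : Tendsto (fun n => (w n : ℝ)) atTop atTop :=
  tendsto_natCast_atTop_atTop.comp w_tendsto

/-- `n q ^ e → ∞` with a power to spare -/
lemma nq_tendsto (δ : ℝ) (hδ : 0 < δ) (e : ℕ) :
    Tendsto (fun n : ℕ => (n : ℝ) ^ δ * q n ^ e) atTop atTop := by
  have h1 : Tendsto (fun n : ℕ => Real.exp ((w n : ℝ))) atTop atTop :=
    Real.tendsto_exp_atTop.comp w_real
  refine tendsto_atTop_mono' _ ?_ h1
  have h2 : ∀ᶠ n : ℕ in atTop, (2 * (e : ℝ) + 1) / δ ≤ (w n : ℝ) :=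
    w_real.eventually_ge_atTop _
  filter_upwards [h2, log_ge, eventually_gt_atTop 0] with n h2 h3 h0
  have h4 := wR n
  have hn : (0 : ℝ) < n := by exact_mod_cast h0
  have h5 : Real.exp (-(2 * (w n : ℝ) ^ 3)) ^ e ≤ q n ^ e :=
    pow_le_pow_left₀ (Real.exp_pos _).le (q_ge n) e
  rw [← Real.exp_nat_mul] at h5
  have h6 : Real.exp (δ * (w n : ℝ) ^ 5) ≤ (n : ℝ) ^ δ := by
    rw [Real.rpow_def_of_pos hn]
    apply Real.exp_le_exp.2
    rw [mul_comm]
    exact mul_le_mul_of_nonneg_right h3 hδ.le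
  have h7 := mul_le_mul h6 h5 (Real.exp_pos _).le (by positivity)
  rw [← Real.exp_add] at h7
  refine le_trans (Real.exp_le_exp.2 ?_) h7
  have h8 : 2 * (e : ℝ) + 1 ≤ δ * w n := by
    rw [div_le_iff₀ hδ] at h2
    linarith
  have h9 : (1 : ℝ) ≤ (w n : ℝ) ^ 2 := by nlinarith
  have h10 : (2 * (e : ℝ) + 1) * (w n : ℝ) ^ 4 ≤ δ * w n * (w n : ℝ) ^ 4 :=
    mul_le_mul_of_nonneg_right h8 (by positivity)
  have h11 : (w n : ℝ) ^ 3 ≤ (w n : ℝ) ^ 4 := by
    apply pow_le_pow_right₀ (by linarith) (by norm_num)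
  have h12 : (w n : ℝ) ≤ (w n : ℝ) ^ 4 := by
    calc (w n : ℝ) = (w n : ℝ) ^ 1 := (pow_one _).symm
      _ ≤ _ := pow_le_pow_right₀ (by linarith) (by norm_num)
  have h13 : (e : ℝ) * (2 * (w n : ℝ) ^ 3) ≤ 2 * e * (w n : ℝ) ^ 4 := by
    have : (0 : ℝ) ≤ e := by positivity
    nlinarith
  nlinarith

section counts

variable {V : Type*} [Fintype V]

open Classical in
/-- the normalised embedding count -/
noncomputable def sv (F : SimpleGraph V) (n : ℕ) : ℝ :=
  ((embs F ((w n) ^ 2) ((w n) ^ 5) n).card : ℝ) /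
    ((n.descFactorial (Fintype.card V) : ℝ) * q n ^ F.edgeFinset.card)

open Classical in
/-- the main term -/
noncomputable def tau (F : SimpleGraph V) (n : ℕ) : ℝ :=
  ((((col F ((w n) ^ 2)).card : ℝ) / ((w n) ^ 2 : ℝ) ^ Fintype.card V) /
    (1 - 1 / ((w n) ^ 2 : ℝ)) ^ F.edgeFinset.card) ^ ((w n) ^ 5)

lemma tau_nonneg (F : SimpleGraph V) (n : ℕ) : 0 ≤ tau F n := by
  have h1 := x_le n
  have : 0 ≤ 1 - 1 / ((w n) ^ 2 : ℝ) := by linarith
  unfold tau
  positivity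

open Classical in
lemma tau_le (F : SimpleGraph V) (n : ℕ) :
    tau F n ≤ Real.exp ((2 ^ F.edgeFinset.card * (F.edgeFinset.card : ℝ) ^ 3) / w n) := by
  have h1 := ratio_le F ((w n) ^ 2) (by have := two_le_w n; nlinarith)
  have h2 := x_le n
  have h4 := wR n
  have h3 : 0 ≤ 1 - 1 / ((w n) ^ 2 : ℝ) := by linarith
  set C := 2 ^ F.edgeFinset.card * (F.edgeFinset.card : ℝ) ^ 3 with hC
  have hC0 : 0 ≤ C := by positivity
  push_cast at h1
  unfold tau
  calc ((((col F ((w n) ^ 2)).card : ℝ) / ((w n) ^ 2 : ℝ) ^ Fintype.card V) /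
    (1 - 1 / ((w n) ^ 2 : ℝ)) ^ F.edgeFinset.card) ^ ((w n) ^ 5)
      ≤ (1 + C / (((w n : ℝ) ^ 2) ^ 3)) ^ ((w n) ^ 5) :=
        pow_le_pow_left₀ (by positivity) h1 _
    _ ≤ (Real.exp (C / (((w n : ℝ) ^ 2) ^ 3))) ^ ((w n) ^ 5) := by
        apply pow_le_pow_left₀ (by positivity)
        linarith [Real.add_one_le_exp (C / (((w n : ℝ) ^ 2) ^ 3))]
    _ = Real.exp (C / w n) := by
        rw [← Real.exp_nat_mul]
        congr 1
        push_cast
        field_simp

lemma desc_pos {n k : ℕ} (h : k ≤ n) : (0 : ℝ) < (n.descFactorial k : ℝ) := by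
  exact_mod_cast Nat.descFactorial_pos.2 h

lemma desc_le (n k : ℕ) : (n.descFactorial k : ℝ) ≤ (n : ℝ) ^ k := by
  exact_mod_cast Nat.descFactorial_le_pow n k

open Classical in
lemma sv_le (F : SimpleGraph V) : ∀ᶠ n : ℕ in atTop,
    sv F n ≤ tau F n * ((1 + 1 / ((w n) ^ 2 : ℝ)) ^ Fintype.card V *
      ((n : ℝ) ^ Fintype.card V / (n.descFactorial (Fintype.card V) : ℝ))) := by
  filter_upwards [w_spec, eventually_ge_atTop (Fintype.card V)] with n hn hk
  have h1 := embs_le F ((w n) ^ 2) ((w n) ^ 5) n hn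
  have hd := desc_pos hk
  have hq := q_pos n
  have h2 := x_le n
  have h3 : 0 < 1 - 1 / ((w n) ^ 2 : ℝ) := by linarith
  unfold sv
  rw [div_le_iff₀ (by positivity)]
  push_cast at h1
  refine h1.trans (le_of_eq ?_)
  unfold tau q
  have key : ∀ (A X : ℝ) (e R : ℕ), (A / X ^ e) ^ R = A ^ R / (X ^ R) ^ e := by
    intro A X e R
    rw [div_pow, ← pow_mul, ← pow_mul, mul_comm e]
  rw [key _ (1 - 1 / (w n : ℝ) ^ 2)]
  have hX : ((1 - 1 / (w n : ℝ) ^ 2) ^ w n ^ 5) ^ F.edgeFinset.card ≠ 0 := by positivity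
  field_simp

open Classical in
lemma le_sv (F : SimpleGraph V) : ∀ᶠ n : ℕ in atTop,
    tau F n * (1 - 1 / ((w n) ^ 2 : ℝ)) ^ Fintype.card V -
      (Fintype.card V : ℝ) ^ 2 / ((n : ℝ) * q n ^ F.edgeFinset.card) ≤ sv F n := by
  filter_upwards [w_spec, eventually_ge_atTop (Fintype.card V), eventually_gt_atTop 0]
    with n hn hk h0
  have h1 := le_embs F ((w n) ^ 2) ((w n) ^ 5) n hn
  have hd := desc_pos hk
  have hq := q_pos n
  have h2 := x_le n
  have h3 : 0 < 1 - 1 / ((w n) ^ 2 : ℝ) := by linarith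
  have hn0 : (0 : ℝ) < n := by exact_mod_cast h0
  have h4 : ((embs F ((w n) ^ 2) ((w n) ^ 5) n).card : ℝ) /
      ((n : ℝ) ^ Fintype.card V * q n ^ F.edgeFinset.card) ≤ sv F n := by
    unfold sv
    apply div_le_div_of_nonneg_left (by positivity) (by positivity)
    exact mul_le_mul_of_nonneg_right (desc_le _ _) (by positivity)
  refine le_trans ?_ h4
  rw [le_div_iff₀ (by positivity)]
  push_cast at h1
  refine le_trans (le_of_eq ?_) h1
  rw [sub_mul]
  congr 1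
  · unfold tau q
    rw [div_pow _ _ ((w n) ^ 5), ← pow_mul (1 - 1 / (w n : ℝ) ^ 2), ← pow_mul (1 - 1 / (w n : ℝ) ^ 2),
      mul_comm F.edgeFinset.card]
    field_simp
  · field_simp

lemma pow_div_desc (k : ℕ) :
    Tendsto (fun n : ℕ => (n : ℝ) ^ k / (n.descFactorial k : ℝ)) atTop (𝓝 1) := by
  have h1 : Tendsto (fun n : ℕ => ((n : ℝ) / ((n : ℝ) + 1 - k)) ^ k) atTop (𝓝 (1 ^ k)) := by
    apply Tendsto.pow
    have h2 : Tendsto (fun n : ℕ => 1 + (k - 1 : ℝ) / ((n : ℝ) + (1 - k))) atTop (𝓝 (1 + 0)) := by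
      apply Tendsto.const_add
      apply Tendsto.const_div_atTop
      exact tendsto_atTop_add_const_right _ _ tendsto_natCast_atTop_atTop
    rw [add_zero] at h2
    refine h2.congr' ?_
    filter_upwards [eventually_ge_atTop k] with n hn
    have : (k : ℝ) ≤ n := by exact_mod_cast hn
    have h3 : (n : ℝ) + (1 - k) ≠ 0 := by
      have : (0 : ℝ) < (n : ℝ) + (1 - k) := by linarith
      exact this.ne'
    have h4 : (n : ℝ) + 1 - k ≠ 0 := by
      have : (0 : ℝ) < (n : ℝ) + 1 - k := by linarith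
      exact this.ne'
    field_simp
    ring
  rw [one_pow] at h1
  refine tendsto_of_tendsto_of_tendsto_of_le_of_le' tendsto_const_nhds h1 ?_ ?_
  · filter_upwards [eventually_ge_atTop k] with n hn
    rw [le_div_iff₀ (desc_pos hn), one_mul]
    exact desc_le n k
  · filter_upwards [eventually_ge_atTop k] with n hn
    have h2 : (k : ℝ) ≤ n := by exact_mod_cast hn
    have h4 : (0 : ℝ) < (n : ℝ) + 1 - k := by linarith
    rw [div_pow]
    apply div_le_div_of_nonneg_left (by positivity) (by positivity)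
    have h5 := Nat.pow_sub_le_descFactorial n k
    have h6 : (((n + 1 - k : ℕ) : ℝ)) ^ k ≤ (n.descFactorial k : ℝ) := by exact_mod_cast h5
    rw [Nat.cast_sub (by omega)] at h6
    push_cast at h6
    exact h6

lemma x_tendsto : Tendsto (fun n : ℕ => 1 / ((w n) ^ 2 : ℝ)) atTop (𝓝 0) := by
  apply Tendsto.const_div_atTop
  exact (tendsto_pow_atTop (by norm_num)).comp w_real

lemma A_tendsto (k : ℕ) : Tendsto (fun n : ℕ => (1 + 1 / ((w n) ^ 2 : ℝ)) ^ k *
      ((n : ℝ) ^ k / (n.descFactorial k : ℝ))) atTop (𝓝 1) := by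
  have h1 : Tendsto (fun n : ℕ => (1 + 1 / ((w n) ^ 2 : ℝ)) ^ k) atTop (𝓝 ((1 + 0) ^ k)) :=
    (x_tendsto.const_add 1).pow k
  have h2 := h1.mul (pow_div_desc k)
  simpa using h2

lemma B_tendsto (k : ℕ) : Tendsto (fun n : ℕ => (1 - 1 / ((w n) ^ 2 : ℝ)) ^ k) atTop (𝓝 1) := by
  have h1 : Tendsto (fun n : ℕ => (1 - 1 / ((w n) ^ 2 : ℝ)) ^ k) atTop (𝓝 ((1 - 0) ^ k)) :=
    (x_tendsto.const_sub 1).pow k
  simpa using h1

lemma D_tendsto (c : ℝ) (e : ℕ) : Tendsto (fun n : ℕ => c / ((n : ℝ) * q n ^ e)) atTop (𝓝 0) := by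
  apply Tendsto.const_div_atTop
  have := nq_tendsto 1 one_pos e
  simpa using this

lemma nonneg_sv (F : SimpleGraph V) (n : ℕ) : 0 ≤ sv F n := by
  have := q_pos n
  unfold sv
  positivity

/-- every normalised count is bounded -/
lemma sv_bdd (F : SimpleGraph V) : ∃ C : ℝ, ∀ n, sv F n ≤ C := by
  classical
  set K := 2 ^ F.edgeFinset.card * (F.edgeFinset.card : ℝ) ^ 3 with hK
  have h1 : ∀ᶠ n : ℕ in atTop, sv F n ≤ Real.exp K * 2 := by
    have h2 : ∀ᶠ n : ℕ in atTop, (1 + 1 / ((w n) ^ 2 : ℝ)) ^ Fintype.card V *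
      ((n : ℝ) ^ Fintype.card V / (n.descFactorial (Fintype.card V) : ℝ)) ≤ 2 :=
      (A_tendsto (Fintype.card V)).eventually_le_const (by norm_num)
    filter_upwards [sv_le F, h2] with n h3 h4
    refine h3.trans ?_
    have h5 : tau F n ≤ Real.exp K := by
      refine (tau_le F n).trans (Real.exp_le_exp.2 ?_)
      apply div_le_self (by positivity)
      have := wR n
      linarith
    exact mul_le_mul h5 h4 (by positivity) (Real.exp_pos _).le
  obtain ⟨n0, hn0⟩ := h1.exists_forall_of_atTop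
  refine ⟨Real.exp K * 2 + ∑ i ∈ range n0, sv F i, ?_⟩
  intro n
  rcases Nat.lt_or_ge n n0 with h | h
  · have h6 : sv F n ≤ ∑ i ∈ range n0, sv F i :=
      single_le_sum (f := fun i => sv F i) (fun i _ => nonneg_sv F i) (mem_range.2 h)
    have := Real.exp_pos K
    linarith
  · have h6 : 0 ≤ ∑ i ∈ range n0, sv F i := sum_nonneg (fun i _ => nonneg_sv F i)
    have := hn0 n h
    linarith

lemma sv_tendsto_one (F : SimpleGraph V) (h : ∀ n, 1 ≤ tau F n) :
    Tendsto (fun n => sv F n) atTop (𝓝 1) := by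
  classical
  have h1 : Tendsto (fun n => tau F n) atTop (𝓝 1) := by
    refine tendsto_of_tendsto_of_tendsto_of_le_of_le (g := fun _ => (1 : ℝ)) tendsto_const_nhds ?_ h
      (tau_le F)
    have h2 : Tendsto (fun n : ℕ => (2 ^ F.edgeFinset.card * (F.edgeFinset.card : ℝ) ^ 3) / (w n : ℝ))
        atTop (𝓝 0) := w_real.const_div_atTop _
    have h3 := (Real.continuous_exp.tendsto 0).comp h2
    rw [Real.exp_zero] at h3
    exact h3
  have hu := h1.mul (A_tendsto (Fintype.card V))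
  have hl := (h1.mul (B_tendsto (Fintype.card V))).sub
    (D_tendsto ((Fintype.card V : ℝ) ^ 2) F.edgeFinset.card)
  rw [mul_one] at hu
  rw [mul_one, sub_zero] at hl
  exact tendsto_of_tendsto_of_tendsto_of_le_of_le' hl hu (le_sv F) (sv_le F)

end counts

open Classical in
lemma edges_top_two : (⊤ : SimpleGraph (Fin 2)).edgeFinset.card = 1 := by
  have h : (⊤ : SimpleGraph (Fin 2)).edgeFinset.card = (Fintype.card (Fin 2)).choose 2 :=
    SimpleGraph.card_edgeFinset_top_eq_card_choose_two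
  rw [h]
  rfl

end Pool.Agent.N896.TP
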