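import Pool.Agent.N896.TP.Count

/-!
Bounds for the number of embeddings into the balanced blow-up of `K_m^{⊗ r}`.
-/

set_option autoImplicit false

open Finset Function

namespace Pool.Agent.N896.TP

variable {V : Type*} [Fintype V]

open Classical in
/-- embeddings of `F` into `gr m r n` -/
noncomputable def embs (F : SimpleGraph V) (m r n : ℕ) [NeZero m] [NeZero r] :
    Finset (V → Fin n) :=
  (homs F m r n).filter (fun f => Injective f)

open Classical in
lemma card_noninj (n : ℕ) :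
    n * (univ.filter (fun f : V → Fin n => ¬ Injective f)).card ≤
      Fintype.card V ^ 2 * n ^ Fintype.card V := by
  have h1 : (univ.filter (fun f : V → Fin n => ¬ Injective f)) ⊆
      (univ : Finset V).offDiag.biUnion (fun q => univ.filter (fun f : V → Fin n => f q.1 = f q.2)) := by
    intro f hf
    simp only [mem_filter, mem_univ, true_and, Injective, not_forall] at hf
    obtain ⟨a, b, hab, hne⟩ := hf
    simp only [mem_biUnion, mem_offDiag, mem_univ, true_and, mem_filter]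
    exact ⟨(a, b), hne, hab⟩
  have h2 := (card_le_card h1).trans card_biUnion_le
  have h3 := Nat.mul_le_mul_left n h2
  refine h3.trans ?_
  rw [mul_sum, sum_congr rfl (g := fun _ => n ^ Fintype.card V)]
  · rw [sum_const, smul_eq_mul, offDiag_card, card_univ]
    apply Nat.mul_le_mul_right
    rw [pow_two]
    exact Nat.sub_le _ _
  · intro q hq
    rw [mem_offDiag] at hq
    exact card_one n q.1 q.2 hq.2.2

lemma embs_le (F : SimpleGraph V) (m r n : ℕ) [NeZero m] [NeZero r] (hn : m * m ^ r ≤ n) :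
    ((embs F m r n).card : ℝ) ≤
      (((col F m).card : ℝ) / (m : ℝ) ^ Fintype.card V) ^ r * (n : ℝ) ^ Fintype.card V *
        (1 + 1 / (m : ℝ)) ^ Fintype.card V := by
  classical
  have hm : 0 < m := NeZero.pos m
  have hN : 0 < m ^ r := pow_pos hm r
  have h1 : (embs F m r n).card ≤ (homs F m r n).card := card_le_card (filter_subset _ _)
  have h2 : ((embs F m r n).card : ℝ) ≤
      ((col F m).card : ℝ) ^ r * (((n / m ^ r : ℕ) : ℝ) + 1) ^ Fintype.card V := by
    have := h1.trans (homs_bounds F m r n).2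
    exact_mod_cast this
  refine h2.trans ?_
  have hmR : (0 : ℝ) < m := by exact_mod_cast hm
  have hNR : (0 : ℝ) < (m : ℝ) ^ r := by positivity
  have h3 : (((n / m ^ r : ℕ) : ℝ) + 1) ≤ (n : ℝ) * (1 + 1 / (m : ℝ)) / (m : ℝ) ^ r := by
    rw [le_div_iff₀ hNR, add_mul, one_mul]
    have h4 : ((n / m ^ r : ℕ) : ℝ) * (m : ℝ) ^ r ≤ n := by
      exact_mod_cast Nat.div_mul_le_self n (m ^ r)
    have h5 : (m : ℝ) * (m : ℝ) ^ r ≤ n := by exact_mod_cast hn
    have h6 : (m : ℝ) ^ r ≤ (n : ℝ) * (1 / (m : ℝ)) := by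
      rw [mul_one_div, le_div_iff₀ hmR]
      linarith
    linarith
  have h7 : (((n / m ^ r : ℕ) : ℝ) + 1) ^ Fintype.card V ≤
      ((n : ℝ) * (1 + 1 / (m : ℝ)) / (m : ℝ) ^ r) ^ Fintype.card V :=
    pow_le_pow_left₀ (by positivity) h3 _
  calc ((col F m).card : ℝ) ^ r * (((n / m ^ r : ℕ) : ℝ) + 1) ^ Fintype.card V
      ≤ ((col F m).card : ℝ) ^ r *
        ((n : ℝ) * (1 + 1 / (m : ℝ)) / (m : ℝ) ^ r) ^ Fintype.card V :=
        mul_le_mul_of_nonneg_left h7 (by positivity)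
    _ = _ := by
        rw [div_pow, mul_pow, div_pow, ← pow_mul, ← pow_mul, mul_comm r]
        ring

lemma le_embs (F : SimpleGraph V) (m r n : ℕ) [NeZero m] [NeZero r] (hn : m * m ^ r ≤ n) :
    (((col F m).card : ℝ) / (m : ℝ) ^ Fintype.card V) ^ r * (n : ℝ) ^ Fintype.card V *
        (1 - 1 / (m : ℝ)) ^ Fintype.card V -
        (Fintype.card V : ℝ) ^ 2 * (n : ℝ) ^ Fintype.card V / n ≤ ((embs F m r n).card : ℝ) := by
  classical
  have hm : 0 < m := NeZero.pos m
  have hN : 0 < m ^ r := pow_pos hm r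
  have hmR : (0 : ℝ) < m := by exact_mod_cast hm
  have hmR1 : (1 : ℝ) ≤ m := by exact_mod_cast hm
  have hNR : (0 : ℝ) < (m : ℝ) ^ r := by positivity
  have hn0 : 0 < n := lt_of_lt_of_le (Nat.mul_pos hm hN) hn
  have hnR : (0 : ℝ) < n := by exact_mod_cast hn0
  have h1 : (homs F m r n).card ≤ (embs F m r n).card +
      (univ.filter (fun f : V → Fin n => ¬ Injective f)).card := by
    rw [embs, ← card_filter_add_card_filter_not (s := homs F m r n) (fun f => Injective f)]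
    apply Nat.add_le_add_left
    exact card_le_card (filter_subset_filter _ (subset_univ _))
  have h2 : ((univ.filter (fun f : V → Fin n => ¬ Injective f)).card : ℝ) ≤
      (Fintype.card V : ℝ) ^ 2 * (n : ℝ) ^ Fintype.card V / n := by
    rw [le_div_iff₀ hnR, mul_comm]
    exact_mod_cast card_noninj (V := V) n
  have h3 : ((col F m).card : ℝ) ^ r * (((n / m ^ r : ℕ) : ℝ)) ^ Fintype.card V ≤
      ((homs F m r n).card : ℝ) := by
    exact_mod_cast (homs_bounds F m r n).1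
  have h4 : ((homs F m r n).card : ℝ) ≤ ((embs F m r n).card : ℝ) +
      ((univ.filter (fun f : V → Fin n => ¬ Injective f)).card : ℝ) := by exact_mod_cast h1
  have h5 : (n : ℝ) * (1 - 1 / (m : ℝ)) / (m : ℝ) ^ r ≤ ((n / m ^ r : ℕ) : ℝ) := by
    rw [div_le_iff₀ hNR]
    have h4 : (n : ℝ) < (((n / m ^ r : ℕ) : ℝ) + 1) * (m : ℝ) ^ r := by
      have := Nat.lt_div_mul_add (a := n) hN
      have h : n < (n / m ^ r + 1) * m ^ r := by rw [add_mul, one_mul]; exact this
      exact_mod_cast h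
    have h5 : (m : ℝ) * (m : ℝ) ^ r ≤ n := by exact_mod_cast hn
    have h6 : (m : ℝ) ^ r ≤ (n : ℝ) * (1 / (m : ℝ)) := by
      rw [mul_one_div, le_div_iff₀ hmR]
      linarith
    linarith
  have h0 : (0 : ℝ) ≤ 1 - 1 / (m : ℝ) := by
    rw [sub_nonneg, div_le_one hmR]
    exact hmR1
  have h7 : ((n : ℝ) * (1 - 1 / (m : ℝ)) / (m : ℝ) ^ r) ^ Fintype.card V ≤
      (((n / m ^ r : ℕ) : ℝ)) ^ Fintype.card V :=
    pow_le_pow_left₀ (by positivity) h5 _
  have h8 : (((col F m).card : ℝ) / (m : ℝ) ^ Fintype.card V) ^ r * (n : ℝ) ^ Fintype.card V *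
        (1 - 1 / (m : ℝ)) ^ Fintype.card V ≤
      ((col F m).card : ℝ) ^ r * (((n / m ^ r : ℕ) : ℝ)) ^ Fintype.card V := by
    calc _ = ((col F m).card : ℝ) ^ r *
        ((n : ℝ) * (1 - 1 / (m : ℝ)) / (m : ℝ) ^ r) ^ Fintype.card V := by
            rw [div_pow, div_pow, mul_pow, ← pow_mul, ← pow_mul, mul_comm r]
            ring
      _ ≤ _ := mul_le_mul_of_nonneg_left h7 (by positivity)
  linarith

/-- third order lower bound for `(1 - x) ^ e` -/
lemma pow_lower (x : ℝ) (hx1 : x ≤ 1) (e : ℕ) :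
    1 - e * x + (e : ℝ) * (e - 1) / 2 * x ^ 2 - (e : ℝ) * (e - 1) * (e - 2) / 6 * x ^ 3 ≤
      (1 - x) ^ e := by
  induction e with
  | zero => simp
  | succ e ih =>
    rw [pow_succ]
    have h1 := mul_le_mul_of_nonneg_right ih (show 0 ≤ 1 - x by linarith)
    refine le_trans ?_ h1
    push_cast
    have h2 : 0 ≤ (e : ℝ) * (e - 1) * (e - 2) / 6 * x ^ 4 := by
      have h3 : 0 ≤ (e : ℝ) * (e - 1) * (e - 2) := by
        rcases Nat.lt_or_ge e 3 with h | h
        · interval_cases e <;> norm_num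
        · have h4 : (3 : ℝ) ≤ e := by exact_mod_cast h
          have h5 : (0 : ℝ) ≤ (e : ℝ) - 1 := by linarith
          have h6 : (0 : ℝ) ≤ (e : ℝ) - 2 := by linarith
          positivity
      positivity
    nlinarith

open Classical in
/-- the normalised number of `m`-colourings is at most `1 + C / m ^ 3` -/
lemma ratio_le (F : SimpleGraph V) (m : ℕ) (hm : 2 ≤ m) :
    (((col F m).card : ℝ) / (m : ℝ) ^ Fintype.card V) / (1 - 1 / (m : ℝ)) ^ F.edgeFinset.card ≤
      1 + 2 ^ F.edgeFinset.card * (F.edgeFinset.card : ℝ) ^ 3 / (m : ℝ) ^ 3 := by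
  set e := F.edgeFinset.card with he
  set k := Fintype.card V with hk
  have hmR : (2 : ℝ) ≤ m := by exact_mod_cast hm
  have hm0 : (0 : ℝ) < m := by linarith
  set x : ℝ := 1 / (m : ℝ) with hx
  have hx0 : 0 < x := by positivity
  have hx1 : x ≤ 1 / 2 := by
    rw [hx]
    exact one_div_le_one_div_of_le (by norm_num) hmR
  have hb := bonf F m
  have hb2 : 2 * (m : ℝ) ^ 2 * ((col F m).card : ℝ) + 2 * m * (e * (m : ℝ) ^ k) ≤
      2 * (m : ℝ) ^ 2 * (m : ℝ) ^ k + e * (e - 1) * (m : ℝ) ^ k := by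
    have h1 : ((e * (e - 1) : ℕ) : ℝ) = (e : ℝ) * (e - 1) := by
      rcases Nat.eq_zero_or_pos e with h | h
      · rw [h]; simp
      · rw [Nat.cast_mul, Nat.cast_sub h, Nat.cast_one]
    rw [← h1]
    exact_mod_cast hb
  have hc : ((col F m).card : ℝ) / (m : ℝ) ^ k ≤ 1 - e * x + (e : ℝ) * (e - 1) / 2 * x ^ 2 := by
    rw [div_le_iff₀ (by positivity)]
    have h2 : x * m = 1 := by rw [hx]; field_simp
    have h3 : (0 : ℝ) < 2 * (m : ℝ) ^ 2 := by positivity
    refine le_of_mul_le_mul_left ?_ h3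
    calc 2 * (m : ℝ) ^ 2 * ((col F m).card : ℝ)
        ≤ 2 * (m : ℝ) ^ 2 * (m : ℝ) ^ k + e * (e - 1) * (m : ℝ) ^ k - 2 * m * (e * (m : ℝ) ^ k) := by
          linarith
      _ = 2 * (m : ℝ) ^ 2 * (m : ℝ) ^ k + e * (e - 1) * (x * m) ^ 2 * (m : ℝ) ^ k -
          2 * m * (x * m) * (e * (m : ℝ) ^ k) := by rw [h2]; ring
      _ = _ := by ring
  have hp := pow_lower x (by linarith) e
  have h1x : 0 < 1 - x := by linarith
  have he3 : (e : ℝ) * (e - 1) * (e - 2) / 6 ≤ (e : ℝ) ^ 3 := by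
    rcases Nat.eq_zero_or_pos e with h | h
    · rw [h]; norm_num
    · have h1 : (1 : ℝ) ≤ e := by exact_mod_cast h
      nlinarith [mul_nonneg (sub_nonneg.2 h1) (sub_nonneg.2 h1),
        mul_nonneg (mul_nonneg (sub_nonneg.2 h1) (sub_nonneg.2 h1)) (sub_nonneg.2 h1)]
  have h4 : ((col F m).card : ℝ) / (m : ℝ) ^ k ≤ (1 - x) ^ e + (e : ℝ) ^ 3 * x ^ 3 := by
    have : (e : ℝ) * (e - 1) * (e - 2) / 6 * x ^ 3 ≤ (e : ℝ) ^ 3 * x ^ 3 :=
      mul_le_mul_of_nonneg_right he3 (by positivity)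
    linarith
  have h5 : (1 / 2 : ℝ) ^ e ≤ (1 - x) ^ e := pow_le_pow_left₀ (by norm_num) (by linarith) e
  rw [div_le_iff₀ (by positivity)]
  refine h4.trans ?_
  have h6 : (e : ℝ) ^ 3 * x ^ 3 ≤ 2 ^ e * (e : ℝ) ^ 3 / (m : ℝ) ^ 3 * (1 - x) ^ e := by
    calc (e : ℝ) ^ 3 * x ^ 3 = 2 ^ e * (e : ℝ) ^ 3 / (m : ℝ) ^ 3 * (1 / 2) ^ e := by
          rw [hx, div_pow, div_pow, one_pow, one_pow]
          field_simp
      _ ≤ _ := mul_le_mul_of_nonneg_left h5 (by positivity)
  linarith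

end Pool.Agent.N896.TP
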