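import Mathlib

/-!
Counting homomorphisms into blow-ups of the tensor power `K_m^{⊗ r}` of the complete graph.
-/

set_option autoImplicit false

open Finset Function

namespace Pool.Agent.N896.TP

section colour

variable {V : Type*} [Fintype V]

open Classical in
/-- proper colourings of `F` with `m` colours -/
noncomputable def col (F : SimpleGraph V) (m : ℕ) : Finset (V → Fin m) :=
  univ.filter (fun c => ∀ i j, F.Adj i j → c i ≠ c j)

open Classical in
lemma card_update (m : ℕ) (x y : V) (hxy : x ≠ y) (P : (V → Fin m) → Prop)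
    (hP : ∀ c j, P (update c x j) ↔ P c) :
    m * (univ.filter (fun c : V → Fin m => P c ∧ c x = c y)).card =
      (univ.filter (fun c : V → Fin m => P c)).card := by
  have h : ((univ : Finset (Fin m)) ×ˢ (univ.filter (fun c : V → Fin m => P c ∧ c x = c y))).card =
      (univ.filter (fun c : V → Fin m => P c)).card := by
    refine Finset.card_nbij' (fun q => update q.2 x q.1) (fun c => (c x, update c x (c y))) ?_ ?_ ?_ ?_
    · rintro ⟨j, c⟩ h
      simp only [coe_product, Set.mem_prod, coe_filter, mem_univ, true_and, Set.mem_ofPred_eq] at h ⊢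
      exact (hP _ _).2 h.2.1
    · intro c h
      simp only [coe_product, Set.mem_prod, coe_filter, mem_univ, true_and, Set.mem_ofPred_eq,
        coe_univ, Set.mem_univ] at h ⊢
      refine ⟨(hP _ _).2 h, ?_⟩
      rw [update_self, update_of_ne hxy.symm]
    · rintro ⟨j, c⟩ h
      simp only [coe_product, Set.mem_prod, coe_filter, mem_univ, true_and, Set.mem_ofPred_eq] at h
      simp only [update_self, Prod.mk.injEq, true_and]
      rw [update_of_ne hxy.symm, update_idem, ← h.2.2, update_eq_self]
    · intro c h
      simp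
  rw [← h, card_product, card_univ, Fintype.card_fin]

open Classical in
lemma card_one (m : ℕ) (x y : V) (hxy : x ≠ y) :
    m * (univ.filter (fun c : V → Fin m => c x = c y)).card = m ^ Fintype.card V := by
  have h := card_update m x y hxy (fun _ => True) (by simp)
  simp only [true_and] at h
  rw [h]
  simp

open Classical in
lemma card_two (m : ℕ) (x y a b : V) (hxy : x ≠ y) (hab : a ≠ b) (hxa : x ≠ a) (hxb : x ≠ b) :
    m * (m * (univ.filter (fun c : V → Fin m => c a = c b ∧ c x = c y)).card) =
      m ^ Fintype.card V := by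
  have h := card_update m x y hxy (fun c => c a = c b) (by
    intro c j
    simp only [update_of_ne hxa.symm, update_of_ne hxb.symm])
  have h1 := card_one m a b hab
  have h2 : m * (univ.filter (fun c : V → Fin m => c a = c b ∧ c x = c y)).card =
      (univ.filter (fun c : V → Fin m => c a = c b)).card := by
    convert h
  rw [h2]
  exact h1

/-- the edge `e` is monochromatic in `c` -/
def mono {m : ℕ} (c : V → Fin m) (e : Sym2 V) : Prop := (e.map c).IsDiag

omit [Fintype V] in
lemma mono_mk {m : ℕ} (c : V → Fin m) (a b : V) : mono c s(a, b) ↔ c a = c b := by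
  simp [mono]

open Classical in
lemma card_mono (m : ℕ) (e : Sym2 V) (he : ¬ e.IsDiag) :
    m * (univ.filter (fun c : V → Fin m => mono c e)).card = m ^ Fintype.card V := by
  induction e with
  | _ a b =>
    simp only [mono_mk]
    exact card_one m a b (by simpa using he)

open Classical in
lemma card_mono_two (m : ℕ) (e f : Sym2 V) (he : ¬ e.IsDiag) (hf : ¬ f.IsDiag) (hef : e ≠ f) :
    m * (m * (univ.filter (fun c : V → Fin m => mono c e ∧ mono c f)).card) =
      m ^ Fintype.card V := by
  induction e with
  | _ a b =>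
    induction f with
    | _ x y =>
      simp only [mono_mk]
      have hab : a ≠ b := by simpa using he
      have hxy : x ≠ y := by simpa using hf
      by_cases h1 : x = a ∨ x = b
      · have h2 : y ≠ a ∧ y ≠ b := by
          constructor
          · rintro rfl
            rcases h1 with h1 | h1
            · exact hxy h1
            · subst h1
              exact hef (Sym2.eq_swap)
          · rintro rfl
            rcases h1 with h1 | h1
            · subst h1
              exact hef rfl
            · exact hxy h1
        have h3 := card_two m y x a b hxy.symm hab h2.1 h2.2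
        convert h3 using 6
        exact eq_comm
      · push Not at h1
        exact card_two m x y a b hxy hab h1.1 h1.2

open Classical in
/-- second order Bonferroni inequality for the number of proper colourings -/
lemma bonf (F : SimpleGraph V) (m : ℕ) :
    2 * m ^ 2 * (col F m).card + 2 * m * (F.edgeFinset.card * m ^ Fintype.card V) ≤
      2 * m ^ 2 * m ^ Fintype.card V +
        F.edgeFinset.card * (F.edgeFinset.card - 1) * m ^ Fintype.card V := by
  set E := F.edgeFinset with hE
  set k : (V → Fin m) → ℕ := fun c => (E.filter (fun e => mono c e)).card with hk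
  have hpt : ∀ c : V → Fin m, 2 * (if c ∈ col F m then 1 else 0) + 2 * k c ≤ 2 + k c * (k c - 1) := by
    intro c
    by_cases hc : c ∈ col F m
    · have h0 : k c = 0 := by
        rw [hk]
        simp only
        rw [card_eq_zero, filter_eq_empty_iff]
        intro e he hm
        induction e with
        | _ a b =>
          rw [mono_mk] at hm
          rw [hE, SimpleGraph.mem_edgeFinset, SimpleGraph.mem_edgeSet] at he
          simp only [col, mem_filter, mem_univ, true_and] at hc
          exact hc a b he hm
      simp [hc, h0]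
    · have h1 : 1 ≤ k c := by
        simp only [col, mem_filter, mem_univ, true_and, not_forall, not_not] at hc
        obtain ⟨a, b, hab, hc⟩ := hc
        rw [hk]
        simp only
        rw [Nat.one_le_iff_ne_zero, card_ne_zero]
        refine ⟨s(a, b), ?_⟩
        rw [mem_filter, mono_mk]
        exact ⟨by rw [hE, SimpleGraph.mem_edgeFinset, SimpleGraph.mem_edgeSet]; exact hab, hc⟩
      simp only [hc, if_false, mul_zero, zero_add]
      obtain ⟨t, ht⟩ : ∃ t, k c = t + 1 := ⟨k c - 1, by omega⟩
      rw [ht]
      simp only [Nat.add_sub_cancel]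
      rcases Nat.eq_zero_or_pos t with h | h
      · subst h; norm_num
      · nlinarith
  have hsum := Finset.sum_le_sum (fun c (_ : c ∈ (univ : Finset (V → Fin m))) => hpt c)
  have e0 : ∑ c : V → Fin m, (if c ∈ col F m then 1 else 0) = (col F m).card := by
    rw [← Finset.sum_filter]
    simp
  have e1 : m * ∑ c : V → Fin m, k c = E.card * m ^ Fintype.card V := by
    have : ∑ c : V → Fin m, k c = ∑ e ∈ E, (univ.filter (fun c : V → Fin m => mono c e)).card := by
      simp only [hk, card_filter]
      rw [sum_comm]
    rw [this, mul_sum, sum_congr rfl (g := fun _ => m ^ Fintype.card V), sum_const, smul_eq_mul]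
    intro e he
    apply card_mono
    rw [hE, SimpleGraph.mem_edgeFinset] at he
    exact F.not_isDiag_of_mem_edgeSet he
  have e2 : m ^ 2 * ∑ c : V → Fin m, k c * (k c - 1) = E.card * (E.card - 1) * m ^ Fintype.card V := by
    have h1 : ∀ c : V → Fin m, k c * (k c - 1) =
        ∑ q ∈ E.offDiag, if mono c q.1 ∧ mono c q.2 then 1 else 0 := by
      intro c
      rw [← card_filter]
      have : k c * (k c - 1) = (E.filter (fun e => mono c e)).offDiag.card := by
        rw [offDiag_card, Nat.mul_sub, mul_one]
      rw [this]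
      congr 1
      ext ⟨e, f⟩
      simp only [mem_offDiag, mem_filter]
      tauto
    have h2 : ∑ c : V → Fin m, k c * (k c - 1) =
        ∑ q ∈ E.offDiag, (univ.filter (fun c : V → Fin m => mono c q.1 ∧ mono c q.2)).card := by
      simp only [h1, card_filter]
      rw [sum_comm]
    rw [h2, mul_sum, sum_congr rfl (g := fun _ => m ^ Fintype.card V), sum_const, smul_eq_mul,
      offDiag_card, Nat.mul_sub, mul_one]
    intro q hq
    rw [mem_offDiag] at hq
    rw [pow_two, mul_assoc]
    apply card_mono_two
    · have := hq.1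
      rw [hE, SimpleGraph.mem_edgeFinset] at this
      exact F.not_isDiag_of_mem_edgeSet this
    · have := hq.2.1
      rw [hE, SimpleGraph.mem_edgeFinset] at this
      exact F.not_isDiag_of_mem_edgeSet this
    · exact hq.2.2
  have e3 : ∑ _c : V → Fin m, 2 = 2 * m ^ Fintype.card V := by
    simp [mul_comm]
  rw [sum_add_distrib, sum_add_distrib, ← mul_sum, ← mul_sum, e0, e3] at hsum
  have h3 := Nat.mul_le_mul_left (m ^ 2) hsum
  have h4 : m ^ 2 * (2 * (col F m).card + 2 * ∑ c : V → Fin m, k c) =
      2 * m ^ 2 * (col F m).card + 2 * m * (E.card * m ^ Fintype.card V) := by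
    rw [← e1]; ring
  have h5 : m ^ 2 * (2 * m ^ Fintype.card V + ∑ c : V → Fin m, k c * (k c - 1)) =
      2 * m ^ 2 * m ^ Fintype.card V + E.card * (E.card - 1) * m ^ Fintype.card V := by
    rw [← e2]; ring
  rw [h4, h5] at h3
  exact h3

lemma col_top (k m : ℕ) : (col (⊤ : SimpleGraph (Fin k)) m).card = m.descFactorial k := by
  classical
  have h : (col (⊤ : SimpleGraph (Fin k)) m).card = Fintype.card (Fin k ↪ Fin m) := by
    rw [← Fintype.card_coe]
    refine Fintype.card_congr ⟨fun c => ⟨c.1, ?_⟩, fun e => ⟨e, ?_⟩, ?_, ?_⟩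
    · intro i j hij
      by_contra hne
      have := c.2
      simp only [col, mem_filter, mem_univ, true_and] at this
      exact this i j (by simpa using hne) hij
    · simp only [col, mem_filter, mem_univ, true_and]
      intro i j hij h
      exact (by simpa using hij : i ≠ j) (e.injective h)
    · intro c; rfl
    · intro e; rfl
  rw [h, Fintype.card_embedding_eq, Fintype.card_fin, Fintype.card_fin]

lemma card_avoid_one (m : ℕ) (a : Fin m) : (univ.filter (fun b : Fin m => b ≠ a)).card = m - 1 := by
  rw [filter_ne' univ a, card_erase_of_mem (mem_univ a), card_univ, Fintype.card_fin]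

lemma card_avoid_two (m : ℕ) (a b : Fin m) (h : a ≠ b) :
    (univ.filter (fun c : Fin m => c ≠ a ∧ c ≠ b)).card = m - 2 := by
  have h1 : (univ.filter (fun c : Fin m => c ≠ a ∧ c ≠ b)) = (univ.erase a).erase b := by
    ext c
    simp only [mem_filter, mem_univ, true_and, mem_erase, and_true]
    tauto
  rw [h1, card_erase_of_mem (by simpa using h.symm), card_erase_of_mem (mem_univ a), card_univ,
    Fintype.card_fin]
  omega

lemma mem_col_four (m : ℕ) (c : Fin 4 → Fin m) :
    c ∈ col (SimpleGraph.cycleGraph 4) m ↔
      (c 1 ≠ c 0 ∧ c 1 ≠ c 2) ∧ (c 3 ≠ c 0 ∧ c 3 ≠ c 2) := by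
  simp only [col, mem_filter, mem_univ, true_and]
  constructor
  · intro h
    exact ⟨⟨h 1 0 (by decide), h 1 2 (by decide)⟩, h 3 0 (by decide), h 3 2 (by decide)⟩
  · rintro ⟨⟨h1, h2⟩, h3, h4⟩ i j hij
    have : ∀ i j : Fin 4, (SimpleGraph.cycleGraph 4).Adj i j →
        (i = 1 ∧ j = 0) ∨ (i = 1 ∧ j = 2) ∨ (i = 3 ∧ j = 0) ∨ (i = 3 ∧ j = 2) ∨
        (i = 0 ∧ j = 1) ∨ (i = 2 ∧ j = 1) ∨ (i = 0 ∧ j = 3) ∨ (i = 2 ∧ j = 3) := by decide
    rcases this i j hij with ⟨rfl, rfl⟩ | ⟨rfl, rfl⟩ | ⟨rfl, rfl⟩ | ⟨rfl, rfl⟩ | ⟨rfl, rfl⟩ |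
      ⟨rfl, rfl⟩ | ⟨rfl, rfl⟩ | ⟨rfl, rfl⟩
    exacts [h1, h2, h3, h4, h1.symm, h2.symm, h3.symm, h4.symm]

lemma col_four (m : ℕ) :
    (col (SimpleGraph.cycleGraph 4) m).card =
      m * (m - 1) ^ 2 + m * (m - 1) * (m - 2) ^ 2 := by
  classical
  rw [card_eq_sum_card_fiberwise (f := fun c : Fin 4 → Fin m => (c 0, c 2))
    (t := (univ : Finset (Fin m × Fin m))) (fun _ _ => by simp)]
  have h1 : ∀ q : Fin m × Fin m,
      ((col (SimpleGraph.cycleGraph 4) m).filter (fun c => (c 0, c 2) = q)).card =
        (univ.filter (fun b : Fin m => b ≠ q.1 ∧ b ≠ q.2)).card ^ 2 := by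
    rintro ⟨a, b⟩
    rw [pow_two, ← card_product]
    refine Finset.card_nbij' (fun c => (c 1, c 3)) (fun q => ![a, q.1, b, q.2]) ?_ ?_ ?_ ?_
    · intro c hc
      simp only [coe_filter, Set.mem_ofPred_eq, mem_col_four, Prod.mk.injEq] at hc
      obtain ⟨⟨⟨h1, h2⟩, h3, h4⟩, h5, h6⟩ := hc
      simp only [coe_product, Set.mem_prod, coe_filter, mem_univ, true_and, Set.mem_ofPred_eq]
      rw [← h5, ← h6]
      exact ⟨⟨h1, h2⟩, h3, h4⟩
    · rintro ⟨x, y⟩ hq
      simp only [coe_product, Set.mem_prod, coe_filter, mem_univ, true_and, Set.mem_ofPred_eq] at hq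
      simp only [coe_filter, Set.mem_ofPred_eq, mem_col_four]
      exact ⟨hq, rfl⟩
    · intro c hc
      simp only [coe_filter, Set.mem_ofPred_eq, Prod.mk.injEq] at hc
      obtain ⟨-, h5, h6⟩ := hc
      funext i
      fin_cases i
      · exact h5.symm
      · rfl
      · exact h6.symm
      · rfl
    · rintro ⟨x, y⟩ hq
      rfl
  rw [sum_congr rfl (fun q _ => h1 q), Fintype.sum_prod_type]
  have h2 : ∀ a : Fin m, ∑ b : Fin m, (univ.filter (fun c : Fin m => c ≠ a ∧ c ≠ b)).card ^ 2 =
      (m - 1) ^ 2 + (m - 1) * (m - 2) ^ 2 := by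
    intro a
    rw [← add_sum_erase univ _ (mem_univ a)]
    congr 1
    · simp only [and_self]
      rw [card_avoid_one]
    · rw [sum_congr rfl (g := fun _ => (m - 2) ^ 2)]
      · rw [sum_const, card_erase_of_mem (mem_univ a), card_univ, Fintype.card_fin, smul_eq_mul]
      · intro b hb
        rw [mem_erase] at hb
        rw [card_avoid_two m a b hb.1.symm]
  simp only [h2, sum_const, card_univ, Fintype.card_fin, smul_eq_mul]
  ring

end colour

section blowup

variable {V : Type*} [Fintype V]

/-- the equivalence between `Fin (m ^ r)` and words of length `r` over `m` letters -/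
noncomputable def code (m r : ℕ) : Fin (m ^ r) ≃ (Fin r → Fin m) := finFunctionFinEquiv.symm

/-- the word of the vertex `i` -/
noncomputable def word (m r n : ℕ) [NeZero m] (i : Fin n) : Fin r → Fin m :=
  code m r ⟨i % (m ^ r), Nat.mod_lt _ (pow_pos (NeZero.pos m) r)⟩

/-- the balanced blow-up of `K_m^{⊗ r}` on `n` vertices -/
def gr (m r n : ℕ) [NeZero m] [NeZero r] : SimpleGraph (Fin n) where
  Adj i j := ∀ k, word m r n i k ≠ word m r n j k
  symm := ⟨fun _ _ h k => (h k).symm⟩
  loopless := ⟨fun _ h => h ⟨0, NeZero.pos r⟩ rfl⟩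

/-- the number of vertices with a given word -/
lemma card_fib (m r n : ℕ) [NeZero m] (x : Fin r → Fin m) :
    n / (m ^ r) ≤ (univ.filter (fun i : Fin n => word m r n i = x)).card ∧
      (univ.filter (fun i : Fin n => word m r n i = x)).card ≤ n / (m ^ r) + 1 := by
  have hN : 0 < m ^ r := pow_pos (NeZero.pos m) r
  set v : ℕ := ((code m r).symm x : ℕ) with hv
  have h : (univ.filter (fun i : Fin n => word m r n i = x)).card =
      n.count (fun i => i ≡ v [MOD (m ^ r)]) := by
    rw [Nat.count_eq_card_filter_range]
    refine Finset.card_nbij (fun i : Fin n => (i : ℕ)) ?_ ?_ ?_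
    · intro i hi
      simp only [coe_filter, mem_univ, true_and, Set.mem_ofPred_eq, mem_range] at hi ⊢
      refine ⟨i.2, ?_⟩
      rw [word, ← Equiv.eq_symm_apply] at hi
      have := congrArg Fin.val hi
      simp only at this
      rw [← hv] at this
      show (i : ℕ) % (m ^ r) = v % (m ^ r)
      rw [this, Nat.mod_eq_of_lt]
      rw [hv]
      exact ((code m r).symm x).2
    · intro i _ j _ hij
      exact Fin.ext hij
    · intro i hi
      simp only [coe_filter, mem_range, Set.mem_ofPred_eq] at hi
      refine ⟨⟨i, hi.1⟩, ?_, rfl⟩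
      simp only [coe_filter, mem_univ, true_and, Set.mem_ofPred_eq]
      rw [word, ← Equiv.eq_symm_apply]
      apply Fin.ext
      simp only
      rw [← hv]
      have h1 : i % (m ^ r) = v % (m ^ r) := hi.2
      rw [h1, Nat.mod_eq_of_lt]
      rw [hv]
      exact ((code m r).symm x).2
  rw [h, Nat.count_modEq_card _ hN]
  split_ifs <;> omega

open Classical in
/-- homomorphisms of `F` into `gr m r n` -/
noncomputable def homs (F : SimpleGraph V) (m r n : ℕ) [NeZero m] [NeZero r] :
    Finset (V → Fin n) :=
  univ.filter (fun f => ∀ i j, F.Adj i j → (gr m r n).Adj (f i) (f j))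

open Classical in
/-- homomorphisms of `F` into the tensor power -/
noncomputable def thoms (F : SimpleGraph V) (m r : ℕ) : Finset (V → Fin r → Fin m) :=
  univ.filter (fun f => ∀ i j, F.Adj i j → ∀ k, f i k ≠ f j k)

lemma card_thoms (F : SimpleGraph V) (m r : ℕ) :
    (thoms F m r).card = (col F m).card ^ r := by
  classical
  have h : (thoms F m r).card = (Fintype.piFinset (fun _ : Fin r => col F m)).card := by
    refine Finset.card_nbij' (fun f k i => f i k) (fun f i k => f k i) ?_ ?_ ?_ ?_
    · intro f hf
      simp only [thoms, coe_filter, mem_univ, true_and, Set.mem_ofPred_eq] at hf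
      simp only [Fintype.coe_piFinset, Set.mem_pi, Set.mem_univ, mem_coe, true_implies]
      intro k
      simp only [col, mem_filter, mem_univ, true_and]
      exact fun i j hij => hf i j hij k
    · intro f hf
      simp only [Fintype.coe_piFinset, Set.mem_pi, Set.mem_univ, mem_coe, true_implies] at hf
      simp only [thoms, coe_filter, mem_univ, true_and, Set.mem_ofPred_eq]
      intro i j hij k
      have := hf k
      simp only [col, mem_filter, mem_univ, true_and] at this
      exact this i j hij
    · intro f _; rfl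
    · intro f _; rfl
  rw [h, Fintype.card_piFinset]
  simp

lemma homs_bounds (F : SimpleGraph V) (m r n : ℕ) [NeZero m] [NeZero r] :
    (col F m).card ^ r * (n / (m ^ r)) ^ Fintype.card V ≤ (homs F m r n).card ∧
      (homs F m r n).card ≤ (col F m).card ^ r * (n / (m ^ r) + 1) ^ Fintype.card V := by
  classical
  have h0 : (homs F m r n).card = ∑ g ∈ thoms F m r,
      ((homs F m r n).filter (fun f => (fun v => word m r n (f v)) = g)).card := by
    apply card_eq_sum_card_fiberwise
    intro f hf
    simp only [homs, coe_filter, mem_univ, true_and, Set.mem_ofPred_eq] at hf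
    simp only [thoms, coe_filter, mem_univ, true_and, Set.mem_ofPred_eq]
    exact hf
  have h1 : ∀ g ∈ thoms F m r,
      ((homs F m r n).filter (fun f => (fun v => word m r n (f v)) = g)).card =
        ∏ v : V, (univ.filter (fun i : Fin n => word m r n i = g v)).card := by
    intro g hg
    rw [← Fintype.card_piFinset]
    congr 1
    ext f
    simp only [homs, thoms, mem_filter, mem_univ, true_and, Fintype.mem_piFinset] at hg ⊢
    constructor
    · rintro ⟨-, h⟩ v
      exact congrFun h v
    · intro h
      refine ⟨?_, funext h⟩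
      intro i j hij k
      rw [h i, h j]
      exact hg i j hij k
  rw [h0, sum_congr rfl h1, ← card_thoms]
  constructor
  · rw [← smul_eq_mul, ← sum_const]
    apply sum_le_sum
    intro g _
    rw [← card_univ, ← prod_const]
    exact prod_le_prod' (fun v _ => (card_fib m r n (g v)).1)
  · rw [← smul_eq_mul, ← sum_const]
    apply sum_le_sum
    intro g _
    rw [← card_univ, ← prod_const]
    exact prod_le_prod' (fun v _ => (card_fib m r n (g v)).2)

end blowup

end Pool.Agent.N896.TP
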