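import Pool.Agent.N896.TP.Asym

/-!
The normalised counts of `K_2`, `C_4` and `K_3` in the graphs `gph n`.
-/

set_option autoImplicit false

open Finset Function Filter Topology

namespace Pool.Agent.N896.TP

lemma edges_cycle_four (inst : Fintype (SimpleGraph.cycleGraph 4).edgeSet) :
    (@SimpleGraph.edgeFinset _ (SimpleGraph.cycleGraph 4) inst).card = 4 := by
  rw [Subsingleton.elim inst (SimpleGraph.cycleGraph 4).fintypeEdgeSet]
  have h := (SimpleGraph.cycleGraph 4).sum_degrees_eq_twice_card_edges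
  have h1 : ∀ v : Fin 4, (SimpleGraph.cycleGraph 4).degree v = 2 := by
    intro v
    exact SimpleGraph.cycleGraph_degree_three_le (n := 1) (v := v)
  simp only [h1, sum_const, card_univ, Fintype.card_fin, smul_eq_mul] at h
  omega

lemma edges_top_three (inst : Fintype (⊤ : SimpleGraph (Fin 3)).edgeSet) :
    (@SimpleGraph.edgeFinset _ (⊤ : SimpleGraph (Fin 3)) inst).card = 3 := by
  rw [Subsingleton.elim inst (⊤ : SimpleGraph (Fin 3)).fintypeEdgeSet,
    SimpleGraph.card_edgeFinset_top_eq_card_choose_two]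
  rfl

lemma edges_top_two' (inst : Fintype (⊤ : SimpleGraph (Fin 2)).edgeSet) :
    (@SimpleGraph.edgeFinset _ (⊤ : SimpleGraph (Fin 2)) inst).card = 1 := by
  rw [Subsingleton.elim inst (⊤ : SimpleGraph (Fin 2)).fintypeEdgeSet,
    SimpleGraph.card_edgeFinset_top_eq_card_choose_two]
  rfl

lemma edges_bip (s t : ℕ) (inst : Fintype (completeBipartiteGraph (Fin s) (Fin t)).edgeSet) :
    (@SimpleGraph.edgeFinset _ (completeBipartiteGraph (Fin s) (Fin t)) inst).card = s * t := by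
  have h : (completeBipartiteGraph (Fin s) (Fin t)).edgeSet.encard = (s : ℕ∞) * (t : ℕ∞) := by
    rw [SimpleGraph.encard_edgeSet_completeBipartiteGraph]
    simp
  have h2 := (@SimpleGraph.coe_edgeFinset _ (completeBipartiteGraph (Fin s) (Fin t)) inst)
  rw [← h2, Set.encard_coe_eq_coe_finsetCard] at h
  exact_mod_cast h

lemma cycle_three : SimpleGraph.cycleGraph 3 = (⊤ : SimpleGraph (Fin 3)) := by
  ext i j
  revert i j
  decide

lemma embs_ncard {V : Type*} [Fintype V] (F : SimpleGraph V) (n : ℕ) :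
    Set.ncard {f : V → Fin n | Injective f ∧ ∀ i j, F.Adj i j → (gph n).Adj (f i) (f j)} =
      (embs F ((w n) ^ 2) ((w n) ^ 5) n).card := by
  classical
  rw [← Set.ncard_coe_finset]
  congr 1
  ext f
  simp only [Set.mem_ofPred_eq, embs, homs, coe_filter, mem_filter, mem_univ, true_and, gph]
  tauto

lemma tau_two (n : ℕ) : tau (⊤ : SimpleGraph (Fin 2)) n = 1 := by
  unfold tau
  rw [col_top, edges_top_two']
  have h := wR n
  have h2 := two_le_w n
  have h4 : 4 ≤ (w n) ^ 2 := by nlinarith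
  have h3 : (((w n) ^ 2).descFactorial 2 : ℝ) = (w n : ℝ) ^ 2 * ((w n : ℝ) ^ 2 - 1) := by
    rw [Nat.descFactorial_succ, Nat.descFactorial_one, Nat.cast_mul, Nat.cast_sub (by omega)]
    push_cast
    ring
  rw [h3, Fintype.card_fin]
  have h5 : 0 < (w n : ℝ) ^ 2 - 1 := by nlinarith
  have h6 : (w n : ℝ) ^ 2 * ((w n : ℝ) ^ 2 - 1) / ((w n : ℝ) ^ 2) ^ 2 / (1 - 1 / (w n : ℝ) ^ 2) ^ 1 = 1 := by
    rw [pow_one]
    have : 1 - 1 / (w n : ℝ) ^ 2 = ((w n : ℝ) ^ 2 - 1) / (w n : ℝ) ^ 2 := by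
      field_simp
    rw [this]
    field_simp
  rw [h6, one_pow]

lemma tau_four (n : ℕ) : 1 ≤ tau (SimpleGraph.cycleGraph 4) n := by
  unfold tau
  rw [col_four, edges_cycle_four]
  have h := wR n
  have h2 := two_le_w n
  have h4 : 4 ≤ (w n) ^ 2 := by nlinarith
  apply one_le_pow₀
  have hx1 := x_le n
  have hx0 := x_pos n
  have h5 : ((((w n) ^ 2 * ((w n) ^ 2 - 1) ^ 2 + (w n) ^ 2 * ((w n) ^ 2 - 1) * ((w n) ^ 2 - 2) ^ 2 : ℕ)) : ℝ) /
      ((w n : ℝ) ^ 2) ^ Fintype.card (Fin 4) =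
      (1 - 1 / (w n : ℝ) ^ 2) * (1 - 3 * (1 / (w n : ℝ) ^ 2) + 3 * (1 / (w n : ℝ) ^ 2) ^ 2) := by
    push_cast [Nat.cast_sub (show 1 ≤ (w n) ^ 2 by omega), Nat.cast_sub (show 2 ≤ (w n) ^ 2 by omega)]
    rw [Fintype.card_fin]
    field_simp
    ring
  rw [h5]
  set x := 1 / ((w n : ℝ) ^ 2) with hx
  have h6 : 0 < 1 - x := by linarith
  rw [le_div_iff₀ (by positivity), one_mul]
  have h7 : (1 - x) ^ 4 = (1 - x) * (1 - 3 * x + 3 * x ^ 2 - x ^ 3) := by ring
  rw [h7]
  apply mul_le_mul_of_nonneg_left _ h6.le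
  have : 0 < x ^ 3 := by positivity
  linarith

lemma tau_three (n : ℕ) : tau (⊤ : SimpleGraph (Fin 3)) n ≤ Real.exp (-(w n : ℝ)) := by
  unfold tau
  rw [col_top, edges_top_three]
  have h := wR n
  have h2 := two_le_w n
  have h4 : 4 ≤ (w n) ^ 2 := by nlinarith
  have hx1 := x_le n
  have hx0 := x_pos n
  have h3 : (((w n) ^ 2).descFactorial 3 : ℝ) =
      (w n : ℝ) ^ 2 * ((w n : ℝ) ^ 2 - 1) * ((w n : ℝ) ^ 2 - 2) := by
    rw [Nat.descFactorial_succ, Nat.descFactorial_succ, Nat.descFactorial_one, Nat.cast_mul,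
      Nat.cast_mul, Nat.cast_sub (by omega), Nat.cast_sub (by omega)]
    push_cast
    ring
  have h5 : (((w n) ^ 2).descFactorial 3 : ℝ) / ((w n : ℝ) ^ 2) ^ Fintype.card (Fin 3) =
      (1 - 1 / (w n : ℝ) ^ 2) * (1 - 2 * (1 / (w n : ℝ) ^ 2)) := by
    rw [h3, Fintype.card_fin]
    field_simp
  rw [h5]
  have hxw : (1 / ((w n : ℝ) ^ 2)) ^ 2 * (w n : ℝ) ^ 5 = w n := by
    field_simp
  set x := 1 / ((w n : ℝ) ^ 2) with hx
  have h6 : 0 < 1 - x := by linarith
  have h7 : (1 - x) * (1 - 2 * x) / (1 - x) ^ 3 ≤ Real.exp (-(x ^ 2)) := by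
    rw [div_le_iff₀ (by positivity)]
    have h8 : 1 - x ^ 2 ≤ Real.exp (-(x ^ 2)) := by
      linarith [Real.add_one_le_exp (-(x ^ 2))]
    refine le_trans ?_ (mul_le_mul_of_nonneg_right h8 (by positivity))
    have h9 : (1 - x ^ 2) * (1 - x) ^ 3 - (1 - x) * (1 - 2 * x) = (1 - x) * (x ^ 3 * (2 - x)) := by
      ring
    have h10 : 0 ≤ (1 - x) * (x ^ 3 * (2 - x)) := by
      have : 0 ≤ 2 - x := by linarith
      positivity
    linarith
  have h11 : 0 ≤ (1 - x) * (1 - 2 * x) / (1 - x) ^ 3 := by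
    have : 0 ≤ 1 - 2 * x := by linarith
    positivity
  refine (pow_le_pow_left₀ h11 h7 _).trans (le_of_eq ?_)
  rw [← Real.exp_nat_mul]
  congr 1
  push_cast
  rw [mul_neg, mul_comm, hxw]

lemma sv_two : Tendsto (fun n => sv (⊤ : SimpleGraph (Fin 2)) n) atTop (𝓝 1) :=
  sv_tendsto_one _ (fun n => (tau_two n).ge)

lemma sv_four : Tendsto (fun n => sv (SimpleGraph.cycleGraph 4) n) atTop (𝓝 1) :=
  sv_tendsto_one _ tau_four

lemma sv_three : Tendsto (fun n => sv (⊤ : SimpleGraph (Fin 3)) n) atTop (𝓝 0) := by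
  have h1 : Tendsto (fun n : ℕ => Real.exp (-(w n : ℝ))) atTop (𝓝 0) :=
    Real.tendsto_exp_neg_atTop_nhds_zero.comp w_real
  have h2 := h1.mul (A_tendsto (Fintype.card (Fin 3)))
  rw [zero_mul] at h2
  refine tendsto_of_tendsto_of_tendsto_of_le_of_le' tendsto_const_nhds h2 ?_ ?_
  · exact Eventually.of_forall (fun n => nonneg_sv _ n)
  · filter_upwards [sv_le (⊤ : SimpleGraph (Fin 3))] with n hn
    refine hn.trans ?_
    exact mul_le_mul_of_nonneg_right (tau_three n) (by positivity)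

/-- the density is `n ^ {-o(1)}` -/
lemma density : Tendsto (fun n : ℕ => Real.log (1 / q n) / Real.log n) atTop (𝓝 0) := by
  have h1 : Tendsto (fun n : ℕ => 2 / (w n : ℝ) ^ 2) atTop (𝓝 0) := by
    apply Tendsto.const_div_atTop
    exact (tendsto_pow_atTop (by norm_num)).comp w_real
  refine tendsto_of_tendsto_of_tendsto_of_le_of_le' tendsto_const_nhds h1 ?_ ?_
  · refine Eventually.of_forall (fun n => ?_)
    have h2 := q_pos n
    have h3 := q_le_one n
    apply div_nonneg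
    · apply Real.log_nonneg
      rw [le_div_iff₀ h2]
      linarith
    · exact Real.log_natCast_nonneg n
  · filter_upwards [log_ge] with n hn
    have h4 := wR n
    have h5 : Real.log (1 / q n) ≤ 2 * (w n : ℝ) ^ 3 := by
      rw [one_div, Real.log_inv]
      have h := Real.log_le_log (Real.exp_pos _) (q_ge n)
      rw [Real.log_exp] at h
      linarith
    have h6 : 0 < (w n : ℝ) ^ 5 := by positivity
    rw [div_le_div_iff₀ (by linarith) (by positivity)]
    calc Real.log (1 / q n) * (w n : ℝ) ^ 2 ≤ 2 * (w n : ℝ) ^ 3 * (w n : ℝ) ^ 2 :=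
          mul_le_mul_of_nonneg_right h5 (by positivity)
      _ = 2 * (w n : ℝ) ^ 5 := by ring
      _ ≤ 2 * Real.log n := by linarith

/-- `q n` beats every `(log n) ^ a n ^ {- c}` -/
lemma q_beats (a c : ℝ) (hc : 0 < c) :
    Tendsto (fun n : ℕ => q n / ((Real.log n) ^ a * (n : ℝ) ^ (-c))) atTop atTop := by
  have h1 := nq_tendsto (c / 2) (by positivity) 1
  have h2 : Tendsto (fun n : ℕ => (Real.log n) ^ a / (n : ℝ) ^ (c / 2)) atTop (𝓝 0) := by
    have h := isLittleO_log_rpow_rpow_atTop a (show 0 < c / 2 by positivity)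
    exact (h.tendsto_div_nhds_zero).comp tendsto_natCast_atTop_atTop
  refine tendsto_atTop_mono' _ ?_ h1
  filter_upwards [h2.eventually_le_const (show (0 : ℝ) < 1 by norm_num), eventually_ge_atTop 3]
    with n h3 h4
  have hn : (0 : ℝ) < n := by
    have : (3 : ℝ) ≤ n := by exact_mod_cast h4
    linarith
  have hlog : 0 < Real.log n := Real.log_pos (by
    have : (3 : ℝ) ≤ n := by exact_mod_cast h4
    linarith)
  have hq := q_pos n
  have hl : 0 < (Real.log n) ^ a := Real.rpow_pos_of_pos hlog a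
  have hN : 0 < (n : ℝ) ^ (c / 2) := Real.rpow_pos_of_pos hn _
  have hc' : (n : ℝ) ^ (-c) = 1 / ((n : ℝ) ^ (c / 2) * (n : ℝ) ^ (c / 2)) := by
    rw [← Real.rpow_add hn, Real.rpow_neg hn.le, one_div]
    congr 2
    ring
  rw [hc', pow_one, le_div_iff₀ (by positivity)]
  rw [div_le_one hN] at h3
  have : (n : ℝ) ^ (c / 2) * q n * (Real.log n ^ a * (1 / ((n : ℝ) ^ (c / 2) * (n : ℝ) ^ (c / 2)))) =
      q n * (Real.log n ^ a / (n : ℝ) ^ (c / 2)) := by
    field_simp
  rw [this]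
  calc q n * (Real.log n ^ a / (n : ℝ) ^ (c / 2)) ≤ q n * 1 := by
        apply mul_le_mul_of_nonneg_left _ hq.le
        rw [div_le_one hN]
        exact h3
    _ = q n := mul_one _

end Pool.Agent.N896.TP
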